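import Pool.Agent.U503.SPR.Stm
import Pool.Agent.U324.HP.GEO

/-!
# Project SPR, package G2 (helper873 for helper503): boxes, translations and the grid
(upon `Pool.Agent.U324.HP.GEO` of helper324)
-/

set_option autoImplicit false

open Set Filter Topology Function
open Pool.Agent.Y453.HB Pool.Agent.R773.HN Pool.Agent.N235.DH
open Pool.Agent.U324.HP Pool.Agent.U503.SPR

namespace Pool.Agent.U873.SPR

noncomputable section

variable {n : ℕ}

/-- the points of the grid -/
def W (n : ℕ) (ρ : ℝ) (a : ℕ → ℕ) (s : ℕ) : E n :=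
  ∑ t ∈ Finset.range s, ((a t : ℝ) * (3 * ρ)) • ev n t

theorem W_succ (ρ : ℝ) (a : ℕ → ℕ) (s : ℕ) :
    W n ρ a (s + 1) = W n ρ a s + ((a s : ℝ) * (3 * ρ)) • ev n s := by
  unfold W
  rw [Finset.sum_range_succ]

theorem W_congr (ρ : ℝ) {a a' : ℕ → ℕ} {s : ℕ} (h : ∀ t < s, a t = a' t) :
    W n ρ a s = W n ρ a' s := by
  unfold W
  refine Finset.sum_congr rfl fun t ht => ?_
  rw [h t (Finset.mem_range.1 ht)]

theorem co_W (ρ : ℝ) (a : ℕ → ℕ) (s : ℕ) {b : ℕ} (hb : b < 2 * n) (x : E n) :
    co b (W n ρ a s + x) = co b x + (if b < s then (a b : ℝ) * (3 * ρ) else 0) := by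
  induction s with
  | zero =>
    rw [if_neg (Nat.not_lt_zero b), add_zero]
    unfold W
    rw [Finset.range_zero, Finset.sum_empty, zero_add]
  | succ s ih =>
    have e1 : W n ρ a (s + 1) + x = (W n ρ a s + x) + ((a s : ℝ) * (3 * ρ)) • ev n s := by
      rw [W_succ]; abel
    rw [e1, co_add s hb, ih, add_assoc]
    congr 1
    rcases lt_trichotomy b s with h | h | h
    · rw [if_pos h, if_neg (by omega), if_pos (by omega), add_zero]
    · subst h
      rw [if_neg (lt_irrefl b), if_pos rfl, if_pos (Nat.lt_succ_self b), zero_add]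
    · rw [if_neg (by omega), if_neg (by omega), if_neg (by omega), add_zero]

theorem W_mem {L : ℕ} {ρ : ℝ} (hρ : 0 < ρ) {a : ℕ → ℕ} {s : ℕ} (ha : ∀ t < s, a t < L) {x : E n}
    (hx : x ∈ D 0 ρ) : W n ρ a s + x ∈ Cb n L ρ s := by
  intro b hb
  have h1 : nm (x - 0) ≤ ρ := hx
  rw [sub_zero] at h1
  have h2 := abs_le.1 ((abs_co_le b x).trans h1)
  rw [co_W ρ a s hb x]
  by_cases h : b < s
  · rw [if_pos h, if_pos h]
    have h3 : (a b : ℝ) + 1 ≤ L := by exact_mod_cast ha b h
    have h4 : (0 : ℝ) ≤ a b := Nat.cast_nonneg _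
    constructor
    · have : (0 : ℝ) ≤ a b * (3 * ρ) := by positivity
      linarith [h2.1]
    · nlinarith [h2.2]
  · rw [if_neg h, if_neg h, add_zero]
    exact h2

theorem ext_co {x y : E n} (h : ∀ b < 2 * n, co b x = co b y) : x = y := by
  refine Prod.ext (funext fun i => ?_) (funext fun i => ?_)
  · rw [← co_left, ← co_left]
    exact h i (by omega)
  · rw [← co_right, ← co_right]
    exact h (n + i) (by omega)

theorem W_gv (ρ : ℝ) (a : ℕ → ℕ) :
    W n ρ a (2 * n) = (3 * ρ) • gv n (fun i => a i) (fun i => a (n + i)) := by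
  apply ext_co
  intro b hb
  have h1 := co_W ρ a (2 * n) hb (0 : E n)
  rw [add_zero, if_pos hb] at h1
  have h0 : co b (0 : E n) = 0 := by
    unfold co
    split_ifs <;> rfl
  rw [h1, h0, zero_add]
  unfold co gv
  by_cases h : b < n
  · rw [dif_pos h]
    change _ = 3 * ρ * (a b : ℝ)
    ring
  · have h' : b - n < n := by omega
    rw [dif_neg h, dif_pos h']
    change _ = 3 * ρ * (a (n + (b - n)) : ℝ)
    rw [show n + (b - n) = b by omega]
    ring

theorem t_G2 (hDIS : S_DIS) : S_G2 := by
  intro n L δ hn hL hδ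
  have hn' : (1 : ℝ) ≤ n := by exact_mod_cast hn
  have hL' : (1 : ℝ) ≤ L := by exact_mod_cast hL
  have hC : ∀ s, Cb n L (1 / (12 * n * L)) s ⊆ D 0 (1 / 2) := Cb_sub hn hL
  have hρ' : (0 : ℝ) < 1 / (12 * n * L) := by positivity
  have hρ2 : (1 : ℝ) / (12 * n * L) ≤ 1 / 12 := by
    apply one_div_le_one_div_of_le (by norm_num)
    nlinarith
  rw [← hδ] at hC hρ' hρ2
  have hex : ∀ s : ℕ, ∃ κ : E n ≃ₜ E n, IsHam κ ∧ Supp (D 0 (9 / 10)) κ ∧
      ∀ x ∈ D 0 (1 / 2), κ x = x + (3 * δ) • ev n s := by
    intro s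
    refine hT n 0 0 ((3 * δ) • ev n s) (1 / 2) (9 / 10) (by norm_num) ?_ ?_ ?_
    · rw [nm_zero]; norm_num
    · rw [sub_zero, nm_zero]; norm_num
    · rw [sub_zero, zero_add, nm_smul, abs_of_pos (by positivity)]
      have := nm_ev n s
      nlinarith
  choose κ hκ1 hκ2 hκ3 using hex
  have himg : ∀ s, ∀ i < L, (κ s ^ i) '' Cb n L δ s ⊆ Cb n L δ (s + 1) := by
    rintro s i hi _ ⟨x, hx, rfl⟩
    rw [pow_shift hρ' hC (hκ3 s) hx i hi]
    exact shift_mem hρ' hx hi
  have hham : ∀ s, κ s ∈ HamBar n := fun s => isHam_mem (hκ1 s)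
  have hdisj : ∀ s < 2 * n, ∀ i < L, ∀ j < L, i ≠ j →
      Disjoint ((κ s ^ i) '' Cb n L δ s) ((κ s ^ j) '' Cb n L δ s) := by
    intro s hs i hi j hj hij
    rw [Set.disjoint_left]
    rintro _ ⟨x, hx, rfl⟩ ⟨y, hy, hxy⟩
    rw [pow_shift hρ' hC (hκ3 s) hx i hi, pow_shift hρ' hC (hκ3 s) hy j hj] at hxy
    have h1 := congrArg (co s) hxy
    rw [co_add s hs, co_add s hs, if_pos rfl, if_pos rfl] at h1
    obtain ⟨h2, h3⟩ := hx s hs
    obtain ⟨h4, h5⟩ := hy s hs
    rw [if_neg (lt_irrefl s)] at h3 h5
    rcases lt_or_gt_of_ne hij with h | h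
    · have h6 : (i : ℝ) + 1 ≤ j := by exact_mod_cast h
      nlinarith
    · have h6 : (j : ℝ) + 1 ≤ i := by exact_mod_cast h
      nlinarith
  have hD0 : D (0 : E n) δ ⊆ Cb n L δ 0 := by
    intro x hx
    have h1 : nm (x - 0) ≤ δ := hx
    rw [sub_zero] at h1
    intro a ha
    have h2 := abs_le.1 ((abs_co_le a x).trans h1)
    rw [if_neg (Nat.not_lt_zero a)]
    exact h2
  refine ⟨fun s => Ks n (Cb n L δ s), κ, fun s _ f hf => hf.1, fun s _ => hham s, ?_, ?_, ?_, ?_⟩
  · intro s hs i hi a ha
    exact ⟨(HamBar n).mul_mem ((HamBar n).mul_mem ((HamBar n).pow_mem (hham s) i) ha.1)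
      ((HamBar n).inv_mem ((HamBar n).pow_mem (hham s) i)), (ha.2.conj (κ s ^ i)).mono (himg s i hi)⟩
  · intro s hs i hi j hj hij a ha b hb
    exact Supp.commute (hdisj s hs i hi j hj hij) (ha.2.conj (κ s ^ i)) (hb.2.conj (κ s ^ j))
  · intro f hf hfs
    exact ⟨hf, hfs.mono hD0⟩
  · intro h hh0 hs0 hstep
    have key : ∀ s, s ≤ 2 * n → Supp (Cb n L δ s) (h s) ∧
        (∀ a : ℕ → ℕ, (∀ t < s, a t < L) → ∀ x ∈ D 0 δ,
          h s (W n δ a s + x) = W n δ a s + h 0 x) ∧
        ∀ y, (∀ a : ℕ → ℕ, (∀ t < s, a t < L) → y ∉ D (W n δ a s) δ) → h s y = y := by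
      intro s
      induction s with
      | zero =>
        intro _
        have hW : ∀ a : ℕ → ℕ, W n δ a 0 = 0 := fun a => by
          unfold W
          rw [Finset.range_zero, Finset.sum_empty]
        refine ⟨hs0.mono hD0, fun a _ x _ => by rw [hW, zero_add, zero_add], fun y hy => ?_⟩
        apply hs0
        have := hy (fun _ => 0) (fun t ht => absurd ht (Nat.not_lt_zero t))
        rwa [hW] at this
      | succ s ih =>
        intro hs1
        have hs : s < 2 * n := by omega
        obtain ⟨iA, iB, iC⟩ := ih hs.le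
        obtain ⟨d1, d2⟩ := hDIS n L (fun i => κ s ^ i * h s * (κ s ^ i)⁻¹)
          (fun i => (κ s ^ i) '' Cb n L δ s) (fun i _ => iA.conj (κ s ^ i))
          (fun i hi j hj hij => hdisj s hs i hi j hj hij)
        rw [← hstep s hs] at d1 d2
        have hval : ∀ i < L, ∀ y0 ∈ Cb n L δ s, h (s + 1) ((κ s ^ i) y0) = (κ s ^ i) (h s y0) := by
          intro i hi y0 hy0
          rw [d1 i hi _ ⟨y0, hy0, rfl⟩, mul_apply, mul_apply, inv_apply_self]
        refine ⟨?_, ?_, ?_⟩
        · intro y hy
          exact d2 y fun i hi hyi => hy (himg s i hi hyi)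
        · intro a ha x hx
          have hy0 : W n δ a s + x ∈ Cb n L δ s := W_mem hρ' (fun t ht => ha t (by omega)) hx
          have hi := ha s (Nat.lt_succ_self s)
          have e1 : W n δ a (s + 1) + x = (κ s ^ (a s)) (W n δ a s + x) := by
            rw [pow_shift hρ' hC (hκ3 s) hy0 (a s) hi, W_succ]
            abel
          rw [e1, hval (a s) hi _ hy0, pow_shift hρ' hC (hκ3 s) (iA.maps hy0) (a s) hi,
            iB a (fun t ht => ha t (by omega)) x hx, W_succ]
          abel
        · intro y hy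
          by_cases hyA : ∃ i < L, y ∈ (κ s ^ i) '' Cb n L δ s
          · obtain ⟨i, hi, y0, hy0, rfl⟩ := hyA
            rw [hval i hi y0 hy0]
            congr 1
            apply iC
            intro a ha hya
            apply hy (Function.update a s i)
            · intro t ht
              by_cases hts : t = s
              · subst hts
                rw [Function.update_self]
                exact hi
              · rw [Function.update_of_ne hts]
                exact ha t (by omega)
            · rw [W_succ, Function.update_self, pow_shift hρ' hC (hκ3 s) hy0 i hi,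
                W_congr (n := n) δ (a := Function.update a s i) (a' := a) (s := s)
                  (fun t ht => Function.update_of_ne (by omega) _ _)]
              show nm (_ - _) ≤ δ
              rw [add_sub_add_right_eq_sub]
              exact hya
          · push Not at hyA
            exact d2 y hyA
    obtain ⟨-, kB, kC⟩ := key (2 * n) le_rfl
    constructor
    · intro a b hab x hx
      have e1 := W_gv (n := n) δ (fun t => if h : t < n then a ⟨t, h⟩ else
        if h' : t - n < n then b ⟨t - n, h'⟩ else 0)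
      have e2 : (fun i : Fin n => (fun t : ℕ => if h : t < n then a ⟨t, h⟩ else
          if h' : t - n < n then b ⟨t - n, h'⟩ else 0) i) = a := by
        funext i
        simp only [i.2, dif_pos]
      have e3 : (fun i : Fin n => (fun t : ℕ => if h : t < n then a ⟨t, h⟩ else
          if h' : t - n < n then b ⟨t - n, h'⟩ else 0) (n + i)) = b := by
        funext i
        have h1 : ¬ n + (i : ℕ) < n := by omega
        have h2 : n + (i : ℕ) - n < n := by omega
        simp only [h1, h2, dif_pos, dif_neg, not_false_eq_true]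
        congr 1
        apply Fin.ext
        simp
      rw [e2, e3] at e1
      rw [← e1]
      refine kB _ ?_ x hx
      intro t ht
      by_cases h : t < n
      · simp only [h, dif_pos]
        exact (hab _).1
      · have h' : t - n < n := by omega
        simp only [h, h', dif_pos, dif_neg, not_false_eq_true]
        exact (hab _).2
    · intro y hy
      apply kC
      intro a ha
      rw [W_gv]
      exact hy _ _ fun i => ⟨ha i (by omega), ha (n + i) (by omega)⟩

end

end Pool.Agent.U873.SPR
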